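import Mathlib

set_option autoImplicit false

namespace Pool.Agent.W_MP_a4e3f3_an

open Set

/-- Closing off: a countable set closed under a finitary countable-valued operation. -/
theorem exists_countable_closed {X : Type*} (H : Finset X → Set X)
    (hH : ∀ F, (H F).Countable) (S0 : Set X) (hS0 : S0.Countable) :
    ∃ S : Set X, S.Countable ∧ S0 ⊆ S ∧ ∀ F : Finset X, (F : Set X) ⊆ S → H F ⊆ S := by
  classical
  let T : ℕ → Set X := fun n => Nat.rec S0
    (fun _ s => s ∪ ⋃ F ∈ {F : Finset X | (F : Set X) ⊆ s}, H F) n
  have hT0 : T 0 = S0 := rfl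
  have hTs : ∀ n, T (n + 1) = T n ∪ ⋃ F ∈ {F : Finset X | (F : Set X) ⊆ T n}, H F := fun n => rfl
  have hcount : ∀ n, (T n).Countable := by
    intro n
    induction n with
    | zero => simpa [hT0] using hS0
    | succ n ih =>
      rw [hTs]
      refine ih.union (Set.Countable.biUnion ?_ (fun F _ => hH F))
      have h1 : ({t : Set X | t.Finite ∧ t ⊆ T n}).Countable :=
        Set.countable_ofPred_finite_subset ih
      refine Set.MapsTo.countable_of_injOn (f := fun F : Finset X => (F : Set X)) ?_ ?_ h1
      · intro F hF
        exact ⟨F.finite_toSet, hF⟩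
      · intro F _ G _ h
        exact Finset.coe_injective h
  have hmono : Monotone T := by
    refine monotone_nat_of_le_succ (fun n => ?_)
    rw [hTs]
    exact subset_union_left
  refine ⟨⋃ n, T n, Set.countable_iUnion hcount, ?_, ?_⟩
  · exact Set.subset_iUnion_of_subset 0 (by rw [hT0])
  · intro F hF
    have : ∃ n, (F : Set X) ⊆ T n := by
      have hdir : Directed (· ⊆ ·) T := hmono.directed_le
      exact hdir.exists_mem_subset_of_finset_subset_biUnion hF
    obtain ⟨n, hn⟩ := this
    refine Set.subset_iUnion_of_subset (n + 1) ?_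
    rw [hTs]
    refine subset_union_of_subset_right ?_ _
    exact Set.subset_biUnion_of_mem (u := fun F => H F) hn

/-- Binary branch sets: an almost disjoint family indexed by `ℕ → Bool`. -/
def branch (a : ℕ → Bool) : Set ℕ :=
  Set.range (fun k : ℕ => Encodable.encode ((List.range k).map a))

theorem branch_infinite (a : ℕ → Bool) : (branch a).Infinite := by
  refine Set.infinite_range_of_injective ?_
  intro k l h
  have h1 := Encodable.encode_injective h
  have h2 := congrArg List.length h1
  simpa using h2

theorem branch_inter_finite {a b : ℕ → Bool} (hab : a ≠ b) :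
    (branch a ∩ branch b).Finite := by
  obtain ⟨k0, hk0⟩ : ∃ k, a k ≠ b k := by
    by_contra h
    push Not at h
    exact hab (funext h)
  refine Set.Finite.subset
    (Set.Finite.image (fun k : ℕ => Encodable.encode ((List.range k).map a))
      (Set.finite_Iic k0)) ?_
  rintro m ⟨⟨k, hk⟩, ⟨l, hl⟩⟩
  refine ⟨k, ?_, hk⟩
  have h1 : (List.range k).map a = (List.range l).map b :=
    Encodable.encode_injective (hk.trans hl.symm)
  have hlen : k = l := by
    have := congrArg List.length h1
    simpa using this
  subst hlen
  rw [Set.mem_Iic]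
  by_contra hlt
  push Not at hlt
  apply hk0
  have h2 := List.map_inj_left.mp h1 k0 (List.mem_range.mpr hlt)
  exact h2

end Pool.Agent.W_MP_a4e3f3_an
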