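import Mathlib

set_option autoImplicit false

namespace Pool.Agent.W_MP_a4e3f3_an

open scoped ENNReal
open Set

variable {𝕜 : Type*} [RCLike 𝕜] {Γ : Type*}

/-- The space `ℓ₁(Γ)`. -/
abbrev L1 (𝕜 : Type*) [RCLike 𝕜] (Γ : Type*) := lp (fun _ : Γ => 𝕜) 1

theorem summable_norm (x : L1 𝕜 Γ) : Summable (fun γ => ‖x γ‖) := by
  simpa using (lp.memℓp x).summable (by norm_num)

theorem norm_eq_tsum (x : L1 𝕜 Γ) : ‖x‖ = ∑' γ, ‖x γ‖ := by
  simp [lp.norm_eq_tsum_rpow (p := 1) (by norm_num) x]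

theorem sum_norm_le (x : L1 𝕜 Γ) (F : Finset Γ) : ∑ γ ∈ F, ‖x γ‖ ≤ ‖x‖ := by
  rw [norm_eq_tsum]
  exact (summable_norm x).sum_le_tsum F (fun _ _ => norm_nonneg _)

theorem summable_indicator (S : Set Γ) (x : L1 𝕜 Γ) : Summable (S.indicator (fun γ => x γ)) :=
  (summable_norm x).of_norm.indicator S

/-- The functional `x ↦ ∑_{γ ∈ S} x γ`. -/
noncomputable def indF (S : Set Γ) : StrongDual 𝕜 (L1 𝕜 Γ) :=
  LinearMap.mkContinuous
    { toFun := fun x => ∑' γ, S.indicator (fun γ => x γ) γ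
      map_add' := by
        intro x y
        rw [← (summable_indicator S x).tsum_add (summable_indicator S y)]
        refine tsum_congr (fun γ => ?_)
        by_cases h : γ ∈ S <;> simp [h]
      map_smul' := by
        intro c x
        rw [RingHom.id_apply, smul_eq_mul, ← tsum_mul_left]
        refine tsum_congr (fun γ => ?_)
        by_cases h : γ ∈ S <;> simp [h] }
    1 (by
      intro x
      rw [one_mul, norm_eq_tsum]
      show ‖∑' γ, S.indicator (fun γ => x γ) γ‖ ≤ _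
      have hs : Summable (fun γ => ‖S.indicator (fun γ => x γ) γ‖) := by
        simpa [Set.indicator_comp_of_zero, norm_indicator_eq_indicator_norm] using
          (summable_norm x).indicator S
      refine (norm_tsum_le_tsum_norm hs).trans ?_
      refine hs.tsum_le_tsum (fun γ => ?_) (summable_norm x)
      rw [norm_indicator_eq_indicator_norm]
      exact Set.indicator_le_self' (fun _ _ => norm_nonneg _) γ)

theorem indF_apply (S : Set Γ) (x : L1 𝕜 Γ) :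
    indF S x = ∑' γ, S.indicator (fun γ => x γ) γ := rfl

theorem norm_indF_le (S : Set Γ) (x : L1 𝕜 Γ) : ‖indF S x‖ ≤ ‖x‖ := by
  have := (indF (𝕜 := 𝕜) S).le_opNorm x
  have h1 : ‖indF (𝕜 := 𝕜) S‖ ≤ 1 := LinearMap.mkContinuous_norm_le _ zero_le_one _
  calc ‖indF S x‖ ≤ ‖indF (𝕜 := 𝕜) S‖ * ‖x‖ := this
    _ ≤ 1 * ‖x‖ := by gcongr
    _ = ‖x‖ := one_mul _

/-- Unit vectors. -/
noncomputable def dl [DecidableEq Γ] (γ : Γ) : L1 𝕜 Γ := lp.single 1 γ (1 : 𝕜)

theorem norm_dl [DecidableEq Γ] (γ : Γ) : ‖(dl γ : L1 𝕜 Γ)‖ = 1 := by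
  rw [dl, lp.norm_single (by norm_num)]
  simp

theorem dl_apply [DecidableEq Γ] (γ γ' : Γ) :
    (dl γ : L1 𝕜 Γ) γ' = if γ' = γ then 1 else 0 := by
  by_cases h : γ' = γ
  · subst h
    simp [dl]
  · simp [dl, h]

theorem indF_dl [DecidableEq Γ] (S : Set Γ) [DecidablePred (· ∈ S)] (γ : Γ) :
    indF S (dl γ : L1 𝕜 Γ) = if γ ∈ S then 1 else 0 := by
  rw [indF_apply, tsum_eq_single γ]
  · by_cases h : γ ∈ S <;> simp [h, dl_apply]
  · intro γ' h
    by_cases h' : γ' ∈ S <;> simp [h', dl_apply, h]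

/-- Vectors supported in `B`. -/
def suppIn (𝕜 : Type*) [RCLike 𝕜] {Γ : Type*} (B : Set Γ) : Submodule 𝕜 (L1 𝕜 Γ) where
  carrier := {x | ∀ γ, γ ∉ B → x γ = 0}
  add_mem' := by
    intro x y hx hy γ hγ
    simp [hx γ hγ, hy γ hγ]
  zero_mem' := by
    intro γ _
    simp
  smul_mem' := by
    intro c x hx γ hγ
    simp [hx γ hγ]

theorem mem_suppIn {B : Set Γ} {x : L1 𝕜 Γ} : x ∈ suppIn 𝕜 B ↔ ∀ γ, γ ∉ B → x γ = 0 := Iff.rfl

theorem dl_mem_suppIn [DecidableEq Γ] {B : Set Γ} {γ : Γ} (h : γ ∈ B) :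
    (dl γ : L1 𝕜 Γ) ∈ suppIn 𝕜 B := by
  intro γ' hγ'
  rw [dl_apply, if_neg]
  rintro rfl
  exact hγ' h

/-- Approximation by finitely supported vectors. -/
theorem exists_finset_approx {B : Set Γ} {x : L1 𝕜 Γ} (hx : x ∈ suppIn 𝕜 B) {ε : ℝ}
    (hε : 0 < ε) : ∃ F : Finset Γ, (F : Set Γ) ⊆ B ∧ ∃ y ∈ suppIn 𝕜 (F : Set Γ), ‖x - y‖ < ε := by
  classical
  have h := lp.hasSum_single (p := 1) (by norm_num) x
  rw [HasSum, Metric.tendsto_nhds] at h
  obtain ⟨F, hF⟩ := (h ε hε).exists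
  refine ⟨F.filter (· ∈ B), by intro γ; simp, ∑ γ ∈ F, lp.single 1 γ (x γ), ?_, ?_⟩
  · refine Submodule.sum_mem _ (fun γ hγ => ?_)
    intro γ' hγ'
    by_cases h1 : γ' = γ
    · subst h1
      rw [lp.single_apply_self]
      apply hx
      intro h2
      exact hγ' (by simp [hγ, h2])
    · exact lp.single_apply_ne _ _ _ h1
  · rw [dist_eq_norm] at hF
    rw [norm_sub_rev]
    exact hF

theorem countable_support (x : L1 𝕜 Γ) : {γ | x γ ≠ 0}.Countable := by
  have := (summable_norm x).countable_support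
  refine this.mono ?_
  intro γ hγ
  simpa using hγ

/-- Bounded subset sums imply bounded sums of norms (real case). -/
theorem sum_abs_le_of_subset_sums {ι : Type*} (a : ι → ℝ) {K : ℝ} (F : Finset ι)
    (h : ∀ G ⊆ F, |∑ i ∈ G, a i| ≤ K) : ∑ i ∈ F, |a i| ≤ 2 * K := by
  classical
  have h1 : ∑ i ∈ F, |a i| = ∑ i ∈ F.filter (fun i => 0 ≤ a i), a i
      - ∑ i ∈ F.filter (fun i => ¬ 0 ≤ a i), a i := by
    rw [← Finset.sum_filter_add_sum_filter_not F (fun i => 0 ≤ a i) (fun i => |a i|)]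
    rw [sub_eq_add_neg, ← Finset.sum_neg_distrib]
    congr 1
    · refine Finset.sum_congr rfl (fun i hi => ?_)
      exact abs_of_nonneg (Finset.mem_filter.mp hi).2
    · refine Finset.sum_congr rfl (fun i hi => ?_)
      exact abs_of_neg (not_le.mp (Finset.mem_filter.mp hi).2)
  rw [h1]
  have h2 := h _ (Finset.filter_subset (fun i => 0 ≤ a i) F)
  have h3 := h _ (Finset.filter_subset (fun i => ¬ 0 ≤ a i) F)
  rw [abs_le] at h2 h3
  linarith [h2.2, h3.1]

theorem norm_le_abs_re_add_abs_im (z : 𝕜) : ‖z‖ ≤ |RCLike.re z| + |RCLike.im z| := by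
  have h := RCLike.norm_sq_eq_def (z := z)
  have h1 := abs_nonneg (RCLike.re z)
  have h2 := abs_nonneg (RCLike.im z)
  have h3 := norm_nonneg z
  have h4 : |RCLike.re z| ^ 2 = RCLike.re z * RCLike.re z := by rw [sq_abs]; ring
  have h5 : |RCLike.im z| ^ 2 = RCLike.im z * RCLike.im z := by rw [sq_abs]; ring
  nlinarith [mul_nonneg h1 h2]

/-- Bounded subset sums imply bounded sums of norms (`RCLike` case). -/
theorem sum_norm_le_of_subset_sums {ι : Type*} (a : ι → 𝕜) {K : ℝ} (F : Finset ι)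
    (h : ∀ G ⊆ F, ‖∑ i ∈ G, a i‖ ≤ K) : ∑ i ∈ F, ‖a i‖ ≤ 4 * K := by
  have hre : ∑ i ∈ F, |RCLike.re (a i)| ≤ 2 * K := by
    refine sum_abs_le_of_subset_sums _ F (fun G hG => ?_)
    rw [← map_sum]
    exact (RCLike.abs_re_le_norm _).trans (h G hG)
  have him : ∑ i ∈ F, |RCLike.im (a i)| ≤ 2 * K := by
    refine sum_abs_le_of_subset_sums _ F (fun G hG => ?_)
    rw [← map_sum]
    exact (RCLike.abs_im_le_norm _).trans (h G hG)
  calc ∑ i ∈ F, ‖a i‖ ≤ ∑ i ∈ F, (|RCLike.re (a i)| + |RCLike.im (a i)|) := by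
        refine Finset.sum_le_sum (fun i _ => ?_)
        exact norm_le_abs_re_add_abs_im _
    _ = ∑ i ∈ F, |RCLike.re (a i)| + ∑ i ∈ F, |RCLike.im (a i)| := Finset.sum_add_distrib
    _ ≤ 4 * K := by linarith

end Pool.Agent.W_MP_a4e3f3_an
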