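import Mathlib
import Pool.Agent.W_MP_a4e3f3_an.Comb
import Pool.Agent.W_MP_a4e3f3_an.L1

set_option autoImplicit false

namespace Pool.Agent.W_MP_a4e3f3_an

open scoped ENNReal
open Set TopologicalSpace

variable {𝕜 : Type*} [RCLike 𝕜]

theorem mem_span_image_exists_finset {M ι : Type*} [AddCommGroup M] [Module 𝕜 M] {v : ι → M}
    {s : Set ι} {x : M} (hx : x ∈ Submodule.span 𝕜 (v '' s)) :
    ∃ F : Finset ι, (F : Set ι) ⊆ s ∧ x ∈ Submodule.span 𝕜 (v '' (F : Set ι)) := by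
  rw [Finsupp.mem_span_image_iff_linearCombination] at hx
  obtain ⟨l, hl, rfl⟩ := hx
  refine ⟨l.support, hl, ?_⟩
  rw [Finsupp.mem_span_image_iff_linearCombination]
  exact ⟨l, fun i hi => hi, rfl⟩

variable {Γ : Type*} {Z : Submodule 𝕜 (L1 𝕜 Γ)} {ι : Type*} {e : ι → Z}

theorem isSeparable_suppIn_finset (F : Finset Γ) :
    IsSeparable (suppIn 𝕜 (F : Set Γ) : Set (L1 𝕜 Γ)) := by
  classical
  have h1 : IsSeparable (Submodule.span 𝕜 ((fun γ => (dl γ : L1 𝕜 Γ)) '' (F : Set Γ)) :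
      Set (L1 𝕜 Γ)) := (F.finite_toSet.image _).isSeparable.span
  refine h1.mono ?_
  intro x hx
  have h2 : x = ∑ γ ∈ F, x γ • (dl γ : L1 𝕜 Γ) := by
    ext γ
    rw [lp.coeFn_sum, Finset.sum_apply]
    simp only [lp.coeFn_smul, Pi.smul_apply, dl_apply, smul_eq_mul, mul_ite, mul_one, mul_zero]
    rw [Finset.sum_ite_eq]
    split_ifs with h
    · rfl
    · exact hx γ (by simpa using h)
  rw [h2]
  exact Submodule.sum_mem _ (fun γ hγ => Submodule.smul_mem _ _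
    (Submodule.subset_span ⟨γ, hγ, rfl⟩))

/-- Near-best approximation from the span of the `e i`. -/
theorem exists_near (he : Dense (Submodule.span 𝕜 (range e) : Set Z)) (d : L1 𝕜 Γ) {ε : ℝ}
    (hε : 0 < ε) :
    ∃ F : Finset ι, ∃ z1 ∈ Submodule.span 𝕜 (e '' (F : Set ι)),
      ∀ z : Z, ‖d - z1‖ ≤ ‖d - z‖ + ε := by
  have hne : (Z : Set (L1 𝕜 Γ)).Nonempty := ⟨0, Z.zero_mem⟩
  obtain ⟨z0, hz0, hz0'⟩ := (Metric.infDist_lt_iff (x := d) (r := Metric.infDist d Z + ε / 2)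
    hne).mp (by linarith)
  obtain ⟨z1, hz1, hz1'⟩ := Metric.dense_iff.mp he (⟨z0, hz0⟩ : Z) (ε / 2) (by linarith)
  rw [← Set.image_univ] at hz1'
  obtain ⟨F, _, hF⟩ := mem_span_image_exists_finset hz1'
  refine ⟨F, z1, hF, fun z => ?_⟩
  have h1 : Metric.infDist d Z ≤ dist d z := Metric.infDist_le_dist_of_mem z.2
  have h2 : dist (z1 : L1 𝕜 Γ) z0 < ε / 2 := hz1
  rw [← dist_eq_norm, ← dist_eq_norm]
  calc dist d z1 ≤ dist d z0 + dist z0 (z1 : L1 𝕜 Γ) := dist_triangle _ _ _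
    _ ≤ dist d z + ε := by
      rw [dist_comm z0]
      linarith

theorem local_near (he : Dense (Submodule.span 𝕜 (range e) : Set Z)) (F : Finset Γ) :
    ∃ A : Set ι, A.Countable ∧ ∀ x ∈ suppIn 𝕜 (F : Set Γ), ∀ z : Z, ∀ ε : ℝ, 0 < ε →
      ∃ z1 ∈ Submodule.span 𝕜 (e '' A), ‖x - z1‖ ≤ ‖x - z‖ + ε := by
  obtain ⟨c, hc, hcl⟩ := isSeparable_suppIn_finset (𝕜 := 𝕜) F
  choose G z1 hz1 hz1' using fun (d : L1 𝕜 Γ) (n : ℕ) =>
    exists_near he d (ε := 1 / ((n : ℝ) + 1)) (by positivity)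
  refine ⟨⋃ d ∈ c, ⋃ n : ℕ, (G d n : Set ι), ?_, ?_⟩
  · exact hc.biUnion (fun d _ => Set.countable_iUnion (fun n => (G d n).countable_toSet))
  · intro x hx z ε hε
    obtain ⟨d, hd, hxd⟩ := Metric.mem_closure_iff.mp (hcl hx) (ε / 3) (by linarith)
    obtain ⟨n, hn⟩ := exists_nat_one_div_lt (show (0 : ℝ) < ε / 3 by linarith)
    refine ⟨z1 d n, ?_, ?_⟩
    · refine Submodule.span_mono (Set.image_mono ?_) (hz1 d n)
      exact Set.subset_biUnion_of_mem (u := fun d => ⋃ n : ℕ, (G d n : Set ι)) hd |>.trans' <|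
        Set.subset_iUnion (fun n : ℕ => (G d n : Set ι)) n
    · have h1 := hz1' d n z
      rw [← dist_eq_norm, ← dist_eq_norm] at *
      have h2 : dist x (z1 d n) ≤ dist x d + dist d (z1 d n) := dist_triangle _ _ _
      have h3 : dist d (z : L1 𝕜 Γ) ≤ dist x d + dist x z := dist_triangle_left _ _ _
      linarith

theorem local_norming {c : ℝ}
    (hφ : ∀ z : Z, ∃ φ : StrongDual 𝕜 Z, ‖φ‖ ≤ 1 ∧ {i | φ (e i) ≠ 0}.Countable ∧
      c * ‖z‖ ≤ ‖φ z‖) (hc : 0 < c) (F : Finset ι) :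
    ∃ A : Set ι, A.Countable ∧ ∀ z ∈ Submodule.span 𝕜 (e '' (F : Set ι)),
      ∃ φ : StrongDual 𝕜 Z, ‖φ‖ ≤ 1 ∧ (∀ i, i ∉ A → φ (e i) = 0) ∧ c / 2 * ‖z‖ ≤ ‖φ z‖ := by
  have hsep : IsSeparable (Submodule.span 𝕜 (e '' (F : Set ι)) : Set Z) :=
    (F.finite_toSet.image _).isSeparable.span
  obtain ⟨D, hD, hcl⟩ := hsep
  choose φ hφ1 hφ2 hφ3 using hφ
  refine ⟨⋃ d ∈ D, {i | φ d (e i) ≠ 0}, hD.biUnion (fun d _ => hφ2 d), ?_⟩
  intro z hz
  rcases eq_or_ne z 0 with rfl | hz0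
  · refine ⟨(0 : StrongDual 𝕜 Z), ?_, fun i _ => rfl, ?_⟩
    · refine ContinuousLinearMap.opNorm_le_bound _ zero_le_one (fun x => ?_)
      have h0 : (0 : StrongDual 𝕜 Z) x = 0 := rfl
      rw [h0, norm_zero]
      positivity
    · rw [norm_zero, mul_zero]
      exact norm_nonneg _
  have hzpos : 0 < ‖z‖ := norm_pos_iff.mpr hz0
  have hδ : 0 < c / (2 * (1 + c)) * ‖z‖ := by positivity
  obtain ⟨d, hd, hzd⟩ := Metric.mem_closure_iff.mp (hcl hz) _ hδ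
  refine ⟨φ d, hφ1 d, ?_, ?_⟩
  · intro i hi
    by_contra hcon
    exact hi (Set.mem_biUnion hd hcon)
  · rw [dist_eq_norm] at hzd
    have h1 : ‖φ d d‖ ≤ ‖φ d z‖ + ‖z - d‖ := by
      have h2 : φ d d = φ d z - φ d (z - d) := by rw [map_sub]; ring
      have h3 : ‖φ d (z - d)‖ ≤ ‖z - d‖ := by
        calc ‖φ d (z - d)‖ ≤ ‖φ d‖ * ‖z - d‖ := (φ d).le_opNorm _
          _ ≤ 1 * ‖z - d‖ := by gcongr; exact hφ1 d
          _ = _ := one_mul _
      calc ‖φ d d‖ = ‖φ d z - φ d (z - d)‖ := by rw [← h2]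
        _ ≤ ‖φ d z‖ + ‖φ d (z - d)‖ := norm_sub_le _ _
        _ ≤ _ := by linarith
    have h4 := hφ3 d
    have h5 : ‖z‖ ≤ ‖d‖ + ‖z - d‖ := by
      have : z = d + (z - d) := by abel
      calc ‖z‖ = ‖d + (z - d)‖ := by rw [← this]
        _ ≤ _ := norm_add_le _ _
    have h6 : c * ‖z‖ ≤ c * ‖d‖ + c * ‖z - d‖ := by
      rw [← mul_add]
      gcongr
    have h7 : (1 + c) * ‖z - d‖ ≤ c / 2 * ‖z‖ := by
      calc (1 + c) * ‖z - d‖ ≤ (1 + c) * (c / (2 * (1 + c)) * ‖z‖) := by gcongr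
        _ = c / 2 * ‖z‖ := by field_simp
    nlinarith

/-- The closing-off argument. -/
theorem exists_closed_pair (he : Dense (Submodule.span 𝕜 (range e) : Set Z)) {c : ℝ}
    (hc : 0 < c)
    (hφ : ∀ z : Z, ∃ φ : StrongDual 𝕜 Z, ‖φ‖ ≤ 1 ∧ {i | φ (e i) ≠ 0}.Countable ∧
      c * ‖z‖ ≤ ‖φ z‖) {B0 : Set Γ} (hB0 : B0.Countable) :
    ∃ (A : Set ι) (B : Set Γ), B.Countable ∧ B0 ⊆ B ∧
      (∀ i ∈ A, (e i : L1 𝕜 Γ) ∈ suppIn 𝕜 B) ∧
      (∀ b ∈ suppIn 𝕜 B, ∀ z : Z, ∀ ε : ℝ, 0 < ε →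
        ∃ z1 ∈ Submodule.span 𝕜 (e '' A), ‖b - z1‖ ≤ ‖b - z‖ + ε) ∧
      (∀ z ∈ Submodule.span 𝕜 (e '' A), ∃ φ : StrongDual 𝕜 Z, ‖φ‖ ≤ 1 ∧
        (∀ i, i ∉ A → φ (e i) = 0) ∧ c / 2 * ‖z‖ ≤ ‖φ z‖) := by
  classical
  choose A2 hA2 hA2' using fun F : Finset Γ => local_near he F
  choose A3 hA3 hA3' using fun F : Finset ι => local_norming hφ hc F
  let H : Finset (ι ⊕ Γ) → Set (ι ⊕ Γ) := fun F =>
    (Sum.inr '' (⋃ i ∈ F.toLeft, {γ : Γ | (e i : L1 𝕜 Γ) γ ≠ 0})) ∪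
      (Sum.inl '' (A2 F.toRight)) ∪ (Sum.inl '' (A3 F.toLeft))
  have hH : ∀ F, (H F).Countable := by
    intro F
    refine (((Set.Countable.biUnion F.toLeft.countable_toSet
      (fun i _ => countable_support _)).image _).union ((hA2 _).image _)).union
      ((hA3 _).image _)
  obtain ⟨S, hS, hS0, hSH⟩ := exists_countable_closed H hH (Sum.inr '' B0) (hB0.image _)
  refine ⟨{i | Sum.inl i ∈ S}, {γ | Sum.inr γ ∈ S}, ?_, ?_, ?_, ?_, ?_⟩
  · exact hS.preimage_of_injOn (f := Sum.inr) Sum.inr_injective.injOn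
  · intro γ hγ
    exact hS0 ⟨γ, hγ, rfl⟩
  · intro i hi γ hγ
    by_contra hcon
    apply hγ
    have h1 : ((({Sum.inl i} : Finset (ι ⊕ Γ))) : Set (ι ⊕ Γ)) ⊆ S := by
      intro s hs
      rw [Finset.coe_singleton, Set.mem_singleton_iff] at hs
      rw [hs]
      exact hi
    refine hSH _ h1 (Or.inl (Or.inl ⟨γ, ?_, rfl⟩))
    refine Set.mem_biUnion (x := i) ?_ hcon
    simp
  · intro b hb z ε hε
    obtain ⟨F, hF, x, hx, hbx⟩ := exists_finset_approx hb (ε := ε / 3) (by linarith)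
    obtain ⟨z1, hz1, hz1'⟩ := hA2' F x hx z (ε / 3) (by linarith)
    refine ⟨z1, ?_, ?_⟩
    · refine Submodule.span_mono (Set.image_mono ?_) hz1
      intro i hi
      have h1 : ((F.map Function.Embedding.inr : Finset (ι ⊕ Γ)) : Set (ι ⊕ Γ)) ⊆ S := by
        intro s hs
        simp only [Finset.coe_map, Function.Embedding.inr_apply, Set.mem_image,
          Finset.mem_coe] at hs
        obtain ⟨γ, hγ, rfl⟩ := hs
        exact hF hγ
      refine hSH _ h1 (Or.inl (Or.inr ⟨i, ?_, rfl⟩))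
      have h2 : (F.map Function.Embedding.inr : Finset (ι ⊕ Γ)).toRight = F := by
        ext γ
        simp
      rw [h2]
      exact hi
    · rw [← dist_eq_norm] at *
      rw [← dist_eq_norm] at *
      have h2 : dist b z1 ≤ dist b x + dist x z1 := dist_triangle _ _ _
      have h3 : dist x (z : L1 𝕜 Γ) ≤ dist b x + dist b z := dist_triangle_left _ _ _
      linarith
  · intro z hz
    obtain ⟨F, hF, hzF⟩ := mem_span_image_exists_finset hz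
    obtain ⟨φ, hφ1, hφ2, hφ3⟩ := hA3' F z hzF
    refine ⟨φ, hφ1, ?_, hφ3⟩
    intro i hi
    apply hφ2
    intro hi'
    apply hi
    have h1 : ((F.map Function.Embedding.inl : Finset (ι ⊕ Γ)) : Set (ι ⊕ Γ)) ⊆ S := by
      intro s hs
      simp only [Finset.coe_map, Function.Embedding.inl_apply, Set.mem_image,
        Finset.mem_coe] at hs
      obtain ⟨i, hi, rfl⟩ := hs
      exact hF hi
    refine hSH _ h1 (Or.inr ⟨i, ?_, rfl⟩)
    have h2 : (F.map Function.Embedding.inl : Finset (ι ⊕ Γ)).toLeft = F := by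
      ext γ
      simp
    rw [h2]
    exact hi'

end Pool.Agent.W_MP_a4e3f3_an
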