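import Mathlib
import Pool.Agent.W_MP_a4e3f3_an.L1

set_option autoImplicit false

namespace Pool.Agent.W_MP_a4e3f3_an

open scoped ENNReal
open Set

variable {𝕜 : Type*} [RCLike 𝕜] {Γ : Type*}

/-- The kernel of the map `ℓ₁(Γ) → ℓ∞`, `x ↦ (∑_{γ : m ∈ U γ} x γ)_m`. -/
noncomputable def ker (𝕜 : Type*) [RCLike 𝕜] {Γ : Type*} (U : Γ → Set ℕ) :
    Submodule 𝕜 (L1 𝕜 Γ) :=
  ⨅ m : ℕ, (indF (𝕜 := 𝕜) {γ | m ∈ U γ}).toLinearMap.ker

theorem mem_ker {U : Γ → Set ℕ} {x : L1 𝕜 Γ} :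
    x ∈ ker 𝕜 U ↔ ∀ m, indF {γ | m ∈ U γ} x = 0 := by
  simp [ker, Submodule.mem_iInf]

theorem isClosed_ker (U : Γ → Set ℕ) : IsClosed (ker 𝕜 U : Set (L1 𝕜 Γ)) := by
  have : (ker 𝕜 U : Set (L1 𝕜 Γ)) = ⋂ m, {x | indF {γ | m ∈ U γ} x = 0} := by
    ext x
    simp [mem_ker]
  rw [this]
  exact isClosed_iInter (fun m => isClosed_eq (indF _).continuous continuous_const)

/-- Hahn-Banach extension step. -/
theorem exists_ext {B : Set Γ} {W : Submodule 𝕜 (L1 𝕜 Γ)} {C : ℝ} (hC : 0 ≤ C)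
    (hBW : ∀ b ∈ suppIn 𝕜 B, ∀ w ∈ W, ‖b‖ ≤ C * ‖b - w‖) (S : Set Γ) :
    ∃ f : StrongDual 𝕜 (L1 𝕜 Γ), (∀ b ∈ suppIn 𝕜 B, f b = indF S b) ∧
      (∀ x, ‖f x‖ ≤ C * ‖x‖) ∧ ∀ w ∈ W, f w = 0 := by
  let C' : NNReal := ⟨C, hC⟩
  let p : Seminorm 𝕜 (L1 𝕜 Γ) := C' • (normSeminorm 𝕜 (L1 𝕜 Γ ⧸ W)).comp W.mkQ
  have hp : ∀ x, p x = C * ‖(Submodule.Quotient.mk x : L1 𝕜 Γ ⧸ W)‖ := fun x => rfl
  have hpc : Continuous p := by
    have h1 : Continuous (fun x : L1 𝕜 Γ => (Submodule.Quotient.mk x : L1 𝕜 Γ ⧸ W)) :=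
      continuous_quot_mk
    have : (p : L1 𝕜 Γ → ℝ) = fun x => C * ‖(Submodule.Quotient.mk x : L1 𝕜 Γ ⧸ W)‖ :=
      funext hp
    rw [this]
    exact continuous_const.mul (continuous_norm.comp h1)
  have hle : ∀ b ∈ suppIn 𝕜 B, ‖b‖ ≤ p b := by
    intro b hb
    rw [hp]
    refine le_of_forall_pos_le_add (fun ε hε => ?_)
    have hε' : 0 < ε / (C + 1) := by positivity
    obtain ⟨m, hm, hm'⟩ := Submodule.Quotient.norm_mk_lt
      (Submodule.Quotient.mk b : L1 𝕜 Γ ⧸ W) hε'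
    have hw : b - m ∈ W := by
      rw [← Submodule.Quotient.eq]
      exact hm.symm
    have h1 := hBW b hb (b - m) hw
    rw [sub_sub_cancel] at h1
    have h2 : C * (ε / (C + 1)) ≤ ε := by
      rw [mul_div_assoc', div_le_iff₀ (by positivity)]
      nlinarith
    calc ‖b‖ ≤ C * ‖m‖ := h1
      _ ≤ C * (‖(Submodule.Quotient.mk b : L1 𝕜 Γ ⧸ W)‖ + ε / (C + 1)) := by gcongr
      _ = C * ‖(Submodule.Quotient.mk b : L1 𝕜 Γ ⧸ W)‖ + C * (ε / (C + 1)) := by ring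
      _ ≤ _ := by linarith
  obtain ⟨g, hg, hg'⟩ := Module.Dual.exists_continuous_extension_of_le_seminorm
    (suppIn 𝕜 B) ((indF (𝕜 := 𝕜) S).toLinearMap.domRestrict (suppIn 𝕜 B)) hpc
    (fun x => (norm_indF_le S (x : L1 𝕜 Γ)).trans (hle x x.2))
  refine ⟨g, fun b hb => hg ⟨b, hb⟩, fun x => ?_, fun w hw => ?_⟩
  · refine (hg' x).trans ?_
    rw [hp]
    gcongr
    exact Submodule.Quotient.norm_mk_le W x
  · have h1 := hg' w
    rw [hp, (Submodule.Quotient.mk_eq_zero W).mpr hw, norm_zero, mul_zero] at h1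
    exact norm_le_zero_iff.mp h1

section Core

variable {U : Γ → Set ℕ} {J : Type*} {A : J → Set ℕ}
  {g0 : ℕ → Γ} {g1 : Finset J → Γ} {B : Set Γ} {W : Submodule 𝕜 (L1 𝕜 Γ)}

open Classical in
/-- A functional vanishing on `ℓ₁(B)` and on the kernel vanishes on all but countably many
of the vectors `δ_{g1 {i}}`. -/
theorem countable_of_vanish (hAD : ∀ i j, i ≠ j → (A i ∩ A j).Finite)
    (hg0 : ∀ m, U (g0 m) = {m}) (hg1 : ∀ G, U (g1 G) = ⋃ i ∈ G, A i)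
    (hg0B : ∀ m, g0 m ∈ B)
    (g : StrongDual 𝕜 (L1 𝕜 Γ)) (hgB : ∀ b ∈ suppIn 𝕜 B, g b = 0)
    (hgZ : ∀ z ∈ ker 𝕜 U, g z = 0) :
    {i : J | g (dl (g1 {i})) ≠ 0}.Countable := by
  have key : ∀ G : Finset J, ‖∑ i ∈ G, g (dl (g1 {i}))‖ ≤ ‖g‖ := by
    intro G
    -- the difference is in `ℓ₁(B) + ker`
    let y : L1 𝕜 Γ := ∑ i ∈ G, dl (g1 {i}) - dl (g1 G)
    have hfin : {m : ℕ | indF {γ | m ∈ U γ} y ≠ 0}.Finite := by
      refine Set.Finite.subset
        (Set.Finite.biUnion (G.offDiag.finite_toSet) (t := fun ij => A ij.1 ∩ A ij.2) ?_) ?_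
      · intro ij hij
        have := Finset.mem_offDiag.mp hij
        exact hAD _ _ this.2.2
      · intro m hm
        by_contra hcon
        apply hm
        have hun : ∀ i ∈ G, ∀ j ∈ G, i ≠ j → ¬ (m ∈ A i ∧ m ∈ A j) := by
          intro i hi j hj hij hmem
          apply hcon
          simp only [Set.mem_iUnion]
          exact ⟨(i, j), Finset.mem_coe.mpr (Finset.mem_offDiag.mpr ⟨hi, hj, hij⟩), hmem⟩
        have h1 : indF {γ | m ∈ U γ} y
            = ∑ i ∈ G, (if m ∈ A i then (1 : 𝕜) else 0) - (if m ∈ ⋃ i ∈ G, A i then 1 else 0) := by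
          rw [map_sub, map_sum, indF_dl]
          congr 1
          · refine Finset.sum_congr rfl (fun i _ => ?_)
            rw [indF_dl]
            simp only [Set.mem_ofPred_eq, hg1]
            simp
          · simp only [Set.mem_ofPred_eq, hg1]
        rw [h1]
        by_cases hex : ∃ i ∈ G, m ∈ A i
        · obtain ⟨i, hi, hmi⟩ := hex
          rw [Finset.sum_eq_single i, if_pos hmi, if_pos, sub_self]
          · exact Set.mem_biUnion hi hmi
          · intro j hj hji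
            rw [if_neg]
            intro hmj
            exact hun j hj i hi hji ⟨hmj, hmi⟩
          · intro h
            exact absurd hi h
        · push Not at hex
          rw [Finset.sum_eq_zero, if_neg, sub_self]
          · simp only [Set.mem_iUnion, not_exists]
            intro i hi
            exact hex i hi
          · intro i hi
            rw [if_neg (hex i hi)]
    let c : L1 𝕜 Γ := ∑ m ∈ hfin.toFinset, (indF {γ | m ∈ U γ} y) • dl (g0 m)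
    have hc : c ∈ suppIn 𝕜 B :=
      Submodule.sum_mem _ (fun m _ => Submodule.smul_mem _ _ (dl_mem_suppIn (hg0B m)))
    have hz : y - c ∈ ker 𝕜 U := by
      rw [mem_ker]
      intro k
      rw [map_sub, sub_eq_zero, map_sum]
      simp only [map_smul, indF_dl, Set.mem_ofPred_eq, hg0, Set.mem_singleton_iff, smul_eq_mul,
        mul_ite, mul_one, mul_zero]
      rw [Finset.sum_ite_eq]
      split_ifs with h
      · rfl
      · simpa using h
    have h2 : g y = 0 := by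
      have : y = (y - c) + c := by abel
      rw [this, map_add, hgZ _ hz, hgB _ hc, add_zero]
    have h3 : ∑ i ∈ G, g (dl (g1 {i})) = g (dl (g1 G)) := by
      have : g y = ∑ i ∈ G, g (dl (g1 {i})) - g (dl (g1 G)) := by
        simp only [y, map_sub, map_sum]
      rw [h2] at this
      exact (sub_eq_zero.mp this.symm)
    rw [h3]
    have := g.le_opNorm (dl (g1 G))
    rwa [norm_dl, mul_one] at this
  have hsum : Summable (fun i : J => ‖g (dl (g1 {i}))‖) := by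
    refine summable_of_sum_le (c := 4 * ‖g‖) (fun _ => norm_nonneg _) (fun F => ?_)
    exact sum_norm_le_of_subset_sums _ F (fun G _ => key G)
  refine hsum.countable_support.mono ?_
  intro i hi
  simpa using hi

theorem indF_finset (F : Finset Γ) (x : L1 𝕜 Γ) : indF (F : Set Γ) x = ∑ γ ∈ F, x γ := by
  rw [indF_apply, tsum_eq_sum (s := F)]
  · refine Finset.sum_congr rfl (fun γ hγ => ?_)
    simp [hγ]
  · intro γ hγ
    simp [hγ]

theorem indF_singleton (β : Γ) (x : L1 𝕜 Γ) : indF {β} x = x β := by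
  have := indF_finset {β} x
  simpa using this

theorem vanish_of_closure (g : StrongDual 𝕜 (L1 𝕜 Γ)) (hgB : ∀ b ∈ suppIn 𝕜 B, g b = 0)
    (hgW : ∀ w ∈ W, g w = 0) :
    ∀ z ∈ (suppIn 𝕜 B ⊔ W).topologicalClosure, g z = 0 := by
  have hcl : IsClosed {z : L1 𝕜 Γ | g z = 0} := isClosed_eq g.continuous continuous_const
  have hsub : ((suppIn 𝕜 B ⊔ W : Submodule 𝕜 (L1 𝕜 Γ)) : Set (L1 𝕜 Γ)) ⊆ {z | g z = 0} := by
    intro z hz
    obtain ⟨b, hb, w, hw, rfl⟩ := Submodule.mem_sup.mp hz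
    show g (b + w) = 0
    rw [map_add, hgB b hb, hgW w hw, add_zero]
  intro z hz
  exact closure_minimal hsub hcl hz

/-- The core contradiction. -/
theorem core_false [Uncountable J] (hAinf : ∀ i, (A i).Infinite)
    (hAD : ∀ i j, i ≠ j → (A i ∩ A j).Finite)
    (hg0 : ∀ m, U (g0 m) = {m}) (hg1 : ∀ G, U (g1 G) = ⋃ i ∈ G, A i)
    (hU : ∀ γ, {i : J | (A i ∩ U γ).Infinite}.Countable)
    (hB : B.Countable) (hg0B : ∀ m, g0 m ∈ B)
    (hWZ : W ≤ ker 𝕜 U) (hZ : ker 𝕜 U ≤ (suppIn 𝕜 B ⊔ W).topologicalClosure)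
    {C : ℝ} (hC : 0 ≤ C) (hBW : ∀ b ∈ suppIn 𝕜 B, ∀ w ∈ W, ‖b‖ ≤ C * ‖b - w‖) : False := by
  classical
  choose f hf1 hf2 hf3 using fun S : Set Γ => exists_ext hC hBW S
  -- the countable family of finite subsets of `B`
  let 𝓕 : Set (Finset Γ) := {F : Finset Γ | (F : Set Γ) ⊆ B}
  have h𝓕 : 𝓕.Countable := by
    refine Set.MapsTo.countable_of_injOn (f := fun F : Finset Γ => (F : Set Γ)) ?_ ?_
      (Set.countable_ofPred_finite_subset hB)
    · intro F hF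
      exact ⟨F.finite_toSet, hF⟩
    · intro F _ G _ h
      exact Finset.coe_injective h
  let g : Finset Γ → StrongDual 𝕜 (L1 𝕜 Γ) := fun F => f (F : Set Γ) - ∑ β ∈ F, f {β}
  have hgB : ∀ F, ∀ b ∈ suppIn 𝕜 B, g F b = 0 := by
    intro F b hb
    simp only [g, sub_apply, sum_apply]
    rw [hf1 _ b hb, indF_finset, sub_eq_zero]
    refine Finset.sum_congr rfl (fun β _ => ?_)
    rw [hf1 _ b hb, indF_singleton]
  have hgW : ∀ F, ∀ w ∈ W, g F w = 0 := by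
    intro F w hw
    simp only [g, sub_apply, sum_apply]
    rw [hf3 _ w hw, Finset.sum_eq_zero, sub_zero]
    intro β _
    exact hf3 _ w hw
  have hgZ : ∀ F, ∀ z ∈ ker 𝕜 U, g F z = 0 := fun F z hz =>
    vanish_of_closure (g F) (hgB F) (hgW F) z (hZ hz)
  let C0 : Set J := ⋃ F ∈ 𝓕, {i : J | g F (dl (g1 {i})) ≠ 0}
  have hC0 : C0.Countable := h𝓕.biUnion (fun F _ =>
    countable_of_vanish hAD hg0 hg1 hg0B (g F) (hgB F) (hgZ F))
  -- the submodule `X0`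
  let X0 : Submodule 𝕜 (L1 𝕜 Γ) := ⨅ F ∈ 𝓕, (g F).toLinearMap.ker
  have hX0 : ∀ x : L1 𝕜 Γ, x ∈ X0 ↔ ∀ F : Finset Γ, (F : Set Γ) ⊆ B → g F x = 0 := by
    intro x
    simp only [X0, Submodule.mem_iInf]
    rfl
  have hX0' : ∀ x ∈ X0, ∀ F : Finset Γ, (F : Set Γ) ⊆ B → ∑ β ∈ F, f {β} x = f (F : Set Γ) x := by
    intro x hx F hF
    have h1 := (hX0 x).mp hx F hF
    simp only [g, sub_apply, sum_apply] at h1
    exact (sub_eq_zero.mp h1).symm
  have hbound : ∀ x ∈ X0, ∀ F : Finset Γ,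
      ∑ γ ∈ F, ‖(if γ ∈ B then f {γ} x else 0)‖ ≤ 4 * (C * ‖x‖) := by
    intro x hx F
    have h1 : ∑ γ ∈ F, ‖(if γ ∈ B then f {γ} x else 0)‖
        = ∑ γ ∈ F.filter (· ∈ B), ‖f {γ} x‖ := by
      rw [Finset.sum_filter]
      refine Finset.sum_congr rfl (fun γ _ => ?_)
      split_ifs <;> simp
    rw [h1]
    refine sum_norm_le_of_subset_sums _ _ (fun G hG => ?_)
    have hGB : (G : Set Γ) ⊆ B := by
      intro γ hγ
      have := hG hγ
      simp only [Finset.mem_filter] at this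
      exact this.2
    rw [hX0' x hx G hGB]
    exact hf2 _ x
  have hmem : ∀ x : X0, Memℓp (fun γ : Γ => if γ ∈ B then f {γ} (x : L1 𝕜 Γ) else 0) 1 := by
    intro x
    refine memℓp_gen' (C := 4 * (C * ‖(x : L1 𝕜 Γ)‖)) (fun F => ?_)
    simpa using hbound x x.2 F
  let T : X0 →L[𝕜] L1 𝕜 Γ := LinearMap.mkContinuous
    { toFun := fun x => ⟨fun γ => if γ ∈ B then f {γ} (x : L1 𝕜 Γ) else 0, hmem x⟩
      map_add' := by
        intro x y
        ext γ
        show (if γ ∈ B then f {γ} ((x + y : X0) : L1 𝕜 Γ) else 0)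
          = (if γ ∈ B then f {γ} (x : L1 𝕜 Γ) else 0) + (if γ ∈ B then f {γ} (y : L1 𝕜 Γ) else 0)
        by_cases h : γ ∈ B <;> simp [h]
      map_smul' := by
        intro c x
        ext γ
        show (if γ ∈ B then f {γ} ((c • x : X0) : L1 𝕜 Γ) else 0)
          = c * (if γ ∈ B then f {γ} (x : L1 𝕜 Γ) else 0)
        by_cases h : γ ∈ B <;> simp [h] }
    (4 * C) (by
      intro x
      rw [norm_eq_tsum]
      refine Real.tsum_le_of_sum_le (fun _ => norm_nonneg _) (fun F => ?_)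
      have := hbound x x.2 F
      calc _ ≤ 4 * (C * ‖(x : L1 𝕜 Γ)‖) := this
        _ = _ := by rw [mul_assoc]; rfl)
  have hT : ∀ (x : X0) (γ : Γ), T x γ = if γ ∈ B then f {γ} (x : L1 𝕜 Γ) else 0 := fun _ _ => rfl
  -- functionals
  have hext : ∀ m : ℕ, ∃ Ψ : StrongDual 𝕜 (L1 𝕜 Γ), ∀ x : X0,
      Ψ x = indF {γ | m ∈ U γ} ((x : L1 𝕜 Γ) - T x) := by
    intro m
    obtain ⟨Ψ, hΨ, _⟩ := exists_extension_norm_eq X0
      ((indF (𝕜 := 𝕜) {γ | m ∈ U γ}).comp (X0.subtypeL - T))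
    refine ⟨Ψ, fun x => ?_⟩
    rw [hΨ x]
    rfl
  choose Ψ hΨ using hext
  have hBX : ∀ b ∈ suppIn 𝕜 B, b ∈ X0 := fun b hb => (hX0 b).mpr (fun F _ => hgB F b hb)
  have hWX : ∀ w ∈ W, w ∈ X0 := fun w hw => (hX0 w).mpr (fun F _ => hgW F w hw)
  have hΨB : ∀ m, ∀ b ∈ suppIn 𝕜 B, Ψ m b = 0 := by
    intro m b hb
    have h1 := hΨ m ⟨b, hBX b hb⟩
    have h2 : T ⟨b, hBX b hb⟩ = b := by
      ext γ
      rw [hT]
      by_cases h : γ ∈ B
      · rw [if_pos h, hf1 _ b hb, indF_singleton]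
      · rw [if_neg h, hb γ h]
    rw [h2] at h1
    simpa using h1
  have hΨW : ∀ m, ∀ w ∈ W, Ψ m w = 0 := by
    intro m w hw
    have h1 := hΨ m ⟨w, hWX w hw⟩
    have h2 : T ⟨w, hWX w hw⟩ = 0 := by
      ext γ
      rw [hT]
      by_cases h : γ ∈ B
      · rw [if_pos h, hf3 _ w hw]
        simp
      · rw [if_neg h]
        simp
    rw [h2, sub_zero] at h1
    exact h1.trans (mem_ker.mp (hWZ hw) m)
  have hΨZ : ∀ m, ∀ z ∈ ker 𝕜 U, Ψ m z = 0 := fun m z hz =>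
    vanish_of_closure (Ψ m) (hΨB m) (hΨW m) z (hZ hz)
  let C1 : Set J := ⋃ m : ℕ, {i : J | Ψ m (dl (g1 {i})) ≠ 0}
  have hC1 : C1.Countable := Set.countable_iUnion (fun m =>
    countable_of_vanish hAD hg0 hg1 hg0B (Ψ m) (hΨB m) (hΨZ m))
  let C2 : Set J := ⋃ β ∈ B, {i : J | (A i ∩ U β).Infinite}
  have hC2 : C2.Countable := hB.biUnion (fun β _ => hU β)
  obtain ⟨i, hi⟩ : ∃ i : J, i ∉ C0 ∪ C1 ∪ C2 := by
    by_contra hcon
    push Not at hcon
    have : (Set.univ : Set J).Countable :=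
      ((hC0.union hC1).union hC2).mono (fun i _ => hcon i)
    exact Set.not_countable_univ this
  have hi0 : i ∉ C0 := fun h => hi (Or.inl (Or.inl h))
  have hi1 : i ∉ C1 := fun h => hi (Or.inl (Or.inr h))
  have hi2 : i ∉ C2 := fun h => hi (Or.inr h)
  have hxX : (dl (g1 {i}) : L1 𝕜 Γ) ∈ X0 := by
    rw [hX0]
    intro F hF
    by_contra hcon
    exact hi0 (Set.mem_biUnion (show F ∈ 𝓕 from hF) hcon)
  let x : X0 := ⟨dl (g1 {i}), hxX⟩
  have hTx : T x ∈ suppIn 𝕜 B := by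
    intro γ hγ
    rw [hT, if_neg hγ]
  obtain ⟨F, hFB, y, hy, hxy⟩ := exists_finset_approx hTx (ε := 1 / 2) (by norm_num)
  obtain ⟨m, hmA, hmF⟩ : ∃ m ∈ A i, ∀ β ∈ F, m ∉ U β := by
    have hfin : (⋃ β ∈ F, (A i ∩ U β)).Finite := by
      refine Set.Finite.biUnion F.finite_toSet (fun β hβ => ?_)
      by_contra hcon
      exact hi2 (Set.mem_biUnion (hFB hβ) hcon)
    obtain ⟨m, hmA, hm⟩ := (hAinf i).exists_notMem_finite hfin
    refine ⟨m, hmA, fun β hβ hmU => hm ?_⟩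
    exact Set.mem_biUnion (show β ∈ F from hβ) ⟨hmA, hmU⟩
  have h1 : indF {γ | m ∈ U γ} (x : L1 𝕜 Γ) = indF {γ | m ∈ U γ} (T x) := by
    have h2 : Ψ m (x : L1 𝕜 Γ) = 0 := by
      by_contra hcon
      exact hi1 (Set.mem_iUnion.mpr ⟨m, hcon⟩)
    rw [hΨ m x, map_sub] at h2
    exact sub_eq_zero.mp h2
  have h2 : indF {γ | m ∈ U γ} (x : L1 𝕜 Γ) = 1 := by
    show indF {γ | m ∈ U γ} (dl (g1 {i}) : L1 𝕜 Γ) = 1
    rw [indF_dl, if_pos]
    simp only [Set.mem_ofPred_eq, hg1]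
    simpa using hmA
  have h3 : indF {γ | m ∈ U γ} y = 0 := by
    rw [indF_apply]
    have : ∀ γ, ({γ | m ∈ U γ} : Set Γ).indicator (fun γ => y γ) γ = 0 := by
      intro γ
      by_cases hγ : γ ∈ F
      · rw [Set.indicator_of_notMem]
        exact hmF γ hγ
      · by_cases hγ' : γ ∈ {γ | m ∈ U γ}
        · rw [Set.indicator_of_mem hγ']
          exact hy γ (by simpa using hγ)
        · rw [Set.indicator_of_notMem hγ']
    simp [this]
  have h4 : ‖indF {γ | m ∈ U γ} (T x - y)‖ ≤ ‖T x - y‖ := norm_indF_le _ _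
  rw [map_sub, h3, sub_zero, ← h1, h2, norm_one] at h4
  linarith

end Core

end Pool.Agent.W_MP_a4e3f3_an
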