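import Mathlib
import Pool.Agent.W_MP_a4e3f3_an.Comb
import Pool.Agent.W_MP_a4e3f3_an.L1
import Pool.Agent.W_MP_a4e3f3_an.Core
import Pool.Agent.W_MP_a4e3f3_an.Closing

set_option autoImplicit false

namespace Pool.Agent.W_MP_a4e3f3_an

open scoped ENNReal Cardinal
open Set TopologicalSpace

variable {𝕜 : Type*} [RCLike 𝕜]

/-- No linearly dense family in the kernel has a norming set of countably supported
functionals. -/
theorem no_sigma {Γ J ι : Type*} {U : Γ → Set ℕ} {A : J → Set ℕ}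
    {g0 : ℕ → Γ} {g1 : Finset J → Γ} [Uncountable J] (hAinf : ∀ i, (A i).Infinite)
    (hAD : ∀ i j, i ≠ j → (A i ∩ A j).Finite)
    (hg0 : ∀ m, U (g0 m) = {m}) (hg1 : ∀ G, U (g1 G) = ⋃ i ∈ G, A i)
    (hU : ∀ γ, {i : J | (A i ∩ U γ).Infinite}.Countable)
    (e : ι → ker 𝕜 U) (he : Dense (Submodule.span 𝕜 (range e) : Set (ker 𝕜 U))) {c : ℝ}
    (hc : 0 < c)
    (hφ : ∀ z : ker 𝕜 U, ∃ φ : StrongDual 𝕜 (ker 𝕜 U), ‖φ‖ ≤ 1 ∧
      {i | φ (e i) ≠ 0}.Countable ∧ c * ‖z‖ ≤ ‖φ z‖) : False := by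
  obtain ⟨I, B, hB, hg0B, hIB, hnear, hnorm⟩ :=
    exists_closed_pair he hc hφ (Set.countable_range g0)
  let W' : Submodule 𝕜 (ker 𝕜 U) :=
    ⨅ φ : {φ : StrongDual 𝕜 (ker 𝕜 U) // ∀ i, i ∉ I → φ (e i) = 0}, φ.1.toLinearMap.ker
  have hW' : ∀ z : ker 𝕜 U, z ∈ W' ↔ ∀ φ : StrongDual 𝕜 (ker 𝕜 U),
      (∀ i, i ∉ I → φ (e i) = 0) → φ z = 0 := by
    intro z
    simp only [W', Submodule.mem_iInf, Subtype.forall]
    rfl
  let W : Submodule 𝕜 (L1 𝕜 Γ) := W'.map (ker 𝕜 U).subtype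
  have hWmem : ∀ w ∈ W, ∃ h : w ∈ ker 𝕜 U, (⟨w, h⟩ : ker 𝕜 U) ∈ W' := by
    intro w hw
    obtain ⟨z, hz, rfl⟩ := hw
    exact ⟨z.2, hz⟩
  have hWZ : W ≤ ker 𝕜 U := fun w hw => (hWmem w hw).1
  have heW : ∀ i, (e i : L1 𝕜 Γ) ∈ suppIn 𝕜 B ⊔ W := by
    intro i
    by_cases hi : i ∈ I
    · exact Submodule.mem_sup_left (hIB i hi)
    · refine Submodule.mem_sup_right ⟨e i, ?_, rfl⟩
      exact (hW' (e i)).mpr (fun φ hφ => hφ i hi)
  have hZ : ker 𝕜 U ≤ (suppIn 𝕜 B ⊔ W).topologicalClosure := by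
    intro z hz
    have h1 : (⟨z, hz⟩ : ker 𝕜 U) ∈ closure (Submodule.span 𝕜 (range e) : Set (ker 𝕜 U)) :=
      he _
    have h2 : (Subtype.val '' (Submodule.span 𝕜 (range e) : Set (ker 𝕜 U)))
        ⊆ ((suppIn 𝕜 B ⊔ W : Submodule 𝕜 (L1 𝕜 Γ)) : Set (L1 𝕜 Γ)) := by
      rintro _ ⟨y, hy, rfl⟩
      have h3 : Submodule.span 𝕜 (range e) ≤ (suppIn 𝕜 B ⊔ W).comap (ker 𝕜 U).subtype := by
        rw [Submodule.span_le]
        rintro _ ⟨i, rfl⟩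
        exact heW i
      exact h3 hy
    have h4 : z ∈ closure (Subtype.val '' (Submodule.span 𝕜 (range e) : Set (ker 𝕜 U))) :=
      image_closure_subset_closure_image continuous_subtype_val ⟨_, h1, rfl⟩
    exact closure_mono h2 h4
  have hC : (0 : ℝ) ≤ 1 + 4 / c := by positivity
  refine core_false (𝕜 := 𝕜) hAinf hAD hg0 hg1 hU hB (fun m => hg0B ⟨m, rfl⟩) hWZ hZ hC ?_
  intro b hb w hw
  obtain ⟨hwZ, hwW'⟩ := hWmem w hw
  refine le_of_forall_pos_le_add (fun δ hδ => ?_)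
  have hε : 0 < δ / (1 + 2 / c) := by positivity
  obtain ⟨z1, hz1, hz1'⟩ := hnear b hb ⟨w, hwZ⟩ _ hε
  obtain ⟨φ, hφ1, hφ2, hφ3⟩ := hnorm z1 hz1
  set ε := δ / (1 + 2 / c) with hεdef
  have hz1'' : ‖b - (z1 : L1 𝕜 Γ)‖ ≤ ‖b - w‖ + ε := hz1'
  have h1 : φ ⟨w, hwZ⟩ = 0 := (hW' _).mp hwW' φ hφ2
  have h2 : ‖φ z1‖ ≤ ‖z1 - ⟨w, hwZ⟩‖ := by
    have : φ z1 = φ (z1 - ⟨w, hwZ⟩) := by rw [map_sub, h1, sub_zero]
    rw [this]
    calc ‖φ (z1 - ⟨w, hwZ⟩)‖ ≤ ‖φ‖ * ‖z1 - ⟨w, hwZ⟩‖ := φ.le_opNorm _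
      _ ≤ 1 * ‖z1 - ⟨w, hwZ⟩‖ := by gcongr
      _ = _ := one_mul _
  have h3 : ‖z1 - ⟨w, hwZ⟩‖ ≤ ‖b - (z1 : L1 𝕜 Γ)‖ + ‖b - w‖ := by
    have : ‖z1 - ⟨w, hwZ⟩‖ = ‖(z1 : L1 𝕜 Γ) - w‖ := rfl
    rw [this, ← dist_eq_norm, ← dist_eq_norm, ← dist_eq_norm]
    exact dist_triangle_left _ _ _
  have h4 : ‖b‖ ≤ ‖b - (z1 : L1 𝕜 Γ)‖ + ‖z1‖ := by
    have h5 : b = (b - (z1 : L1 𝕜 Γ)) + z1 := by abel
    have h6 : ‖(z1 : L1 𝕜 Γ)‖ = ‖z1‖ := rfl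
    calc ‖b‖ = ‖(b - (z1 : L1 𝕜 Γ)) + z1‖ := by rw [← h5]
      _ ≤ _ := norm_add_le _ _
  have h7 : c / 2 * ‖z1‖ ≤ 2 * ‖b - w‖ + ε := by linarith
  have h8 : ‖z1‖ ≤ (2 * ‖b - w‖ + ε) * (2 / c) := by
    rw [mul_div_assoc', le_div_iff₀ hc]
    linarith
  have h9 : ε * (1 + 2 / c) = δ := by
    rw [hεdef]
    field_simp
  calc ‖b‖ ≤ (‖b - w‖ + ε) + (2 * ‖b - w‖ + ε) * (2 / c) := by linarith
    _ = (1 + 4 / c) * ‖b - w‖ + ε * (1 + 2 / c) := by ring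
    _ = (1 + 4 / c) * ‖b - w‖ + δ := by rw [h9]

/-- Existence of the combinatorial data. -/
theorem exists_data (Γ : Type*) [Uncountable Γ] :
    ∃ (J : Type) (_ : Uncountable J) (A : J → Set ℕ) (U : Γ → Set ℕ) (g0 : ℕ → Γ)
      (g1 : Finset J → Γ), (∀ i, (A i).Infinite) ∧ (∀ i j, i ≠ j → (A i ∩ A j).Finite) ∧
      (∀ m, U (g0 m) = {m}) ∧ (∀ G, U (g1 G) = ⋃ i ∈ G, A i) ∧
      (∀ γ, {i : J | (A i ∩ U γ).Infinite}.Countable) := by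
  classical
  obtain ⟨p, hp⟩ : ∃ p : Set (ℕ → Bool), #p = ℵ₁ := by
    rw [← Cardinal.le_mk_iff_exists_set]
    have h : #(ℕ → Bool) = 𝔠 := by simp
    rw [h]
    exact Cardinal.aleph_one_le_continuum
  have hunc : Uncountable p := by
    rw [← Cardinal.aleph0_lt_mk_iff, hp]
    exact Cardinal.aleph0_lt_aleph_one
  have hK : #(ℕ ⊕ Finset p) = ℵ₁ := by
    rw [Cardinal.mk_sum, Cardinal.mk_finset_of_infinite, hp]
    simp only [Cardinal.mk_nat, Cardinal.lift_id]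
    exact Cardinal.add_eq_right Cardinal.aleph0_lt_aleph_one.le Cardinal.aleph0_lt_aleph_one.le
  have hΓ : Cardinal.lift #(ℕ ⊕ Finset p) ≤ Cardinal.lift.{0} #Γ := by
    rw [hK, Cardinal.lift_uzero]
    have h1 : ℵ₀ < #Γ := Cardinal.aleph0_lt_mk_iff.mpr inferInstance
    have h2 : Cardinal.lift (ℵ₁ : Cardinal.{0}) = ℵ₁ := by simp
    rw [h2, ← Cardinal.succ_aleph0]
    exact Order.succ_le_of_lt h1
  obtain ⟨emb⟩ := Cardinal.lift_mk_le'.mp hΓ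
  let s : Γ → (ℕ ⊕ Finset p) := Function.invFun emb
  have hs : ∀ k, s (emb k) = k := Function.leftInverse_invFun emb.injective
  let A : p → Set ℕ := fun i => branch i.1
  let UK : (ℕ ⊕ Finset p) → Set ℕ := Sum.elim (fun m => {m}) (fun G => ⋃ i ∈ G, A i)
  have hAD : ∀ i j : p, i ≠ j → (A i ∩ A j).Finite := by
    intro i j hij
    exact branch_inter_finite (fun h => hij (Subtype.ext h))
  have hUK : ∀ k, {i : p | (A i ∩ UK k).Infinite}.Countable := by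
    intro k
    rcases k with m | G
    · have : {i : p | (A i ∩ UK (Sum.inl m)).Infinite} = ∅ := by
        rw [Set.eq_empty_iff_forall_notMem]
        intro i hi
        exact hi ((Set.finite_singleton m).subset Set.inter_subset_right)
      rw [this]
      exact Set.countable_empty
    · refine (G.countable_toSet).mono ?_
      intro i hi
      by_contra hiG
      apply hi
      have h1 : A i ∩ UK (Sum.inr G) ⊆ ⋃ j ∈ G, (A i ∩ A j) := by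
        rintro x ⟨hx1, hx2⟩
        have hx2' : x ∈ ⋃ i ∈ G, A i := hx2
        simp only [Set.mem_iUnion] at hx2' ⊢
        obtain ⟨j, hj, hxj⟩ := hx2'
        exact ⟨j, hj, hx1, hxj⟩
      refine Set.Finite.subset (Set.Finite.biUnion G.finite_toSet (fun j hj => ?_)) h1
      apply hAD
      rintro rfl
      exact hiG hj
  refine ⟨p, hunc, A, fun γ => UK (s γ), fun m => emb (Sum.inl m), fun G => emb (Sum.inr G),
    fun i => branch_infinite _, hAD, ?_, ?_, fun γ => hUK (s γ)⟩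
  · intro m
    simp only [hs]
    rfl
  · intro G
    simp only [hs]
    rfl

end Pool.Agent.W_MP_a4e3f3_an
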